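import Mathlib
import Pool.Agent.H534R3.HNDih

/-!
# Left and right Haar null sets differ in a Polish group amenable at 1

Let `Γ` be a countable locally finite discrete group with an element `τ` with infinite conjugacy
class (we use a generalised dihedral group) and `G = Γ ^ ℕ`. There is a subset `A₀` of `Γ` which
contains a right translate of every finite subset of `Γ` and is disjoint from `A₀ τ`. The closed set
`A = A₀ ^ ℕ` contains a right translate of every compact subset of `G`, so it is not right Haar null,
but every left translate of `A` meets the Cantor set `{1, τ} ^ ℕ` in at most one point, so it is left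
Haar null. The group `G` is amenable at 1 since `Γ` is locally finite.
-/

set_option autoImplicit false

open MeasureTheory Filter Topology

namespace Pool.Agent.Results.MP_092965_lc.LeftNotRight

section defs

variable {G : Type} [Group G] [TopologicalSpace G] [MeasurableSpace G]

/-- `A` is left Haar null: there are a Borel set `B ⊇ A` and a Borel probability measure `μ` with
`μ (g B) = 0` for all `g`. -/
def LeftHaarNull (A : Set G) : Prop :=
  ∃ B : Set G, MeasurableSet B ∧ A ⊆ B ∧ ∃ μ : Measure G, IsProbabilityMeasure μ ∧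
    ∀ g : G, μ ((fun x => g * x) '' B) = 0

/-- `A` is right Haar null: there are a Borel set `B ⊇ A` and a Borel probability measure `μ` with
`μ (B g) = 0` for all `g`. -/
def RightHaarNull (A : Set G) : Prop :=
  ∃ B : Set G, MeasurableSet B ∧ A ⊆ B ∧ ∃ μ : Measure G, IsProbabilityMeasure μ ∧
    ∀ g : G, μ ((fun x => x * g) '' B) = 0

variable (G) in
/-- `G` is amenable at 1 (Solecki): for all Borel probability measures `μ n` such that `1` is in the
support of each `μ n` there are Borel probability measures `ν n ≪ μ n` and `ν₀` such that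
`(ν₀ * ν n) (K) → ν₀ (K)` for every compact set `K`. -/
def AmenableAtOne : Prop :=
  ∀ μ : ℕ → Measure G, (∀ n, IsProbabilityMeasure (μ n)) →
    (∀ n, ∀ U ∈ 𝓝 (1 : G), 0 < μ n U) →
    ∃ (ν : ℕ → Measure G) (ν₀ : Measure G), (∀ n, IsProbabilityMeasure (ν n)) ∧
      IsProbabilityMeasure ν₀ ∧ (∀ n, ν n ≪ μ n) ∧
      ∀ K : Set G, IsCompact K →
        Tendsto (fun n => (ν₀.prod (ν n)) {p : G × G | p.1 * p.2 ∈ K}) atTop (𝓝 (ν₀ K))

end defs

open Pool.Agent.H534R3.HNDih

/-- The group. -/
abbrev GG : Type := ℕ → Dih

instance : PolishSpace GG where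

/-- The set. -/
def A : Set GG := {x | ∀ n, x n ∈ A₀}

theorem isClosed_A : IsClosed A := by
  have : A = ⋂ n, (fun x : GG => x n) ⁻¹' A₀ := by
    ext x; simp [A]
  rw [this]
  exact isClosed_iInter fun n => (isClosed_discrete _).preimage (continuous_apply n)

/-- The compact set of the points with all coordinates in `{1, τ}`. -/
noncomputable def cantor (c : ℕ → Bool) : GG := fun n => if c n then τ else 1

theorem continuous_cantor : Continuous cantor :=
  continuous_pi fun n => (continuous_of_discreteTopology (f := fun b : Bool =>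
    if b then τ else (1 : Dih))).comp (continuous_apply n)

theorem subsingleton_translate (g : GG) :
    {c : ℕ → Bool | cantor c ∈ (fun x => g * x) '' A}.Subsingleton := by
  have key : ∀ c d : ℕ → Bool, cantor c ∈ (fun x => g * x) '' A →
      cantor d ∈ (fun x => g * x) '' A → ∀ n, c n = true → d n = true := by
    rintro c d ⟨x, hx, hxc⟩ ⟨y, hy, hyd⟩ n hc
    by_contra hd
    have h1 := congrFun hxc n
    have h2 := congrFun hyd n
    simp only [cantor, Pi.mul_apply, hc, hd, if_true] at h1 h2
    have h3 : g n * x n = g n * (y n * τ) := by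
      rw [h1, ← mul_assoc, h2]
      simp
    have h4 := mul_left_cancel h3
    have h5 := A₀_mul_τ (y n) (hy n)
    rw [← h4] at h5
    exact h5 (hx n)
  intro c hc d hd
  funext n
  rw [Bool.eq_iff_iff]
  exact ⟨key c d hc hd n, key d c hd hc n⟩

theorem leftHaarNull_A : LeftHaarNull A := by
  refine ⟨A, isClosed_A.measurableSet, subset_rfl, ?_⟩
  have h1 : ¬ Countable ℝ := by
    rw [not_countable_iff]; infer_instance
  let E : ℝ ≃ᵐ (ℕ → Bool) := PolishSpace.measurableEquivNatBoolOfNotCountable h1
  let lam : Measure ℝ := volume.restrict (Set.Icc 0 1)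
  have hlam : IsProbabilityMeasure lam := ⟨by simp [lam]⟩
  have hmeas : Measurable fun r => cantor (E r) := continuous_cantor.measurable.comp E.measurable
  refine ⟨lam.map fun r => cantor (E r), Measure.isProbabilityMeasure_map hmeas.aemeasurable,
    fun g => ?_⟩
  have hm : MeasurableSet ((fun x => g * x) '' A) := by
    have : (fun x => g * x) '' A = Homeomorph.mulLeft g '' A := rfl
    rw [this]
    exact ((Homeomorph.mulLeft g).isClosed_image.2 isClosed_A).measurableSet
  rw [Measure.map_apply hmeas hm]
  have hs : ((fun r => cantor (E r)) ⁻¹' ((fun x => g * x) '' A)).Subsingleton := by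
    intro r hr s hs
    exact E.injective (subsingleton_translate g hr hs)
  exact hs.measure_zero lam

/-- Compact sets have finite projections. -/
theorem finite_proj {K : Set GG} (hK : IsCompact K) (n : ℕ) : ((fun x : GG => x n) '' K).Finite :=
  (hK.image (continuous_apply n)).finite_of_discrete

theorem not_rightHaarNull_A : ¬ RightHaarNull A := by
  rintro ⟨B, hB, hAB, μ, hμ, h⟩
  have hreg := innerRegular_isCompact_isClosed_measurableSet_of_finite μ
  obtain ⟨K, -, ⟨hK, -⟩, hpos⟩ := hreg MeasurableSet.univ 0 (by simp)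
  choose k hk using fun n => translate _ (finite_proj hK n)
  have hsub : K ⊆ (fun x => x * (fun n => (k n)⁻¹ : GG)) '' B := by
    intro x hx
    refine ⟨x * k, hAB fun n => hk n (x n) ⟨x, hx, rfl⟩, ?_⟩
    funext n
    simp
  have := measure_mono (μ := μ) hsub
  rw [h] at this
  exact absurd (nonpos_iff_eq_zero.1 this) hpos.ne'

/-- A probability measure which is right invariant under a product of finite subgroups. -/
theorem exists_invariant (d : ℕ → ℕ) : ∃ ν : Measure GG, IsProbabilityMeasure ν ∧
    ∀ y : GG, (∀ n, y n ∈ sub (d n)) → ∀ K : Set GG, MeasurableSet K →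
      ν {x | x * y ∈ K} = ν K := by
  let L : Type := (n : ℕ) → sub (d n)
  let _ : MeasurableSpace L := borel L
  have _ : BorelSpace L := ⟨rfl⟩
  let lam : Measure L := Measure.haarMeasure ⊤
  have hlam : IsProbabilityMeasure lam :=
    ⟨Measure.haarMeasure_self (K₀ := (⊤ : TopologicalSpace.PositiveCompacts L))⟩
  let j : L → GG := fun l n => ((l n : Dih))⁻¹
  have hj : Continuous j := continuous_pi fun n =>
    (continuous_of_discreteTopology (f := fun a : sub (d n) => (a : Dih)⁻¹)).comp
      (continuous_apply n)
  refine ⟨lam.map j, Measure.isProbabilityMeasure_map hj.measurable.aemeasurable,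
    fun y hy K hK => ?_⟩
  have hK' : MeasurableSet {x : GG | x * y ∈ K} :=
    (continuous_mul_const y).measurable hK
  rw [Measure.map_apply hj.measurable hK', Measure.map_apply hj.measurable hK]
  let y' : L := fun n => ⟨y n, hy n⟩
  have : j ⁻¹' {x : GG | x * y ∈ K} = (fun l : L => y'⁻¹ * l) ⁻¹' (j ⁻¹' K) := by
    ext l
    have : j l * y = j (y'⁻¹ * l) := by
      funext n
      change ((l n : Dih))⁻¹ * y n = (((y' n)⁻¹ * l n : sub (d n)) : Dih)⁻¹
      simp [y', mul_inv_rev]
    simp only [Set.mem_preimage, Set.mem_ofPred_eq, this]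
  rw [this, measure_preimage_mul]

theorem amenableAtOne_GG : AmenableAtOne GG := by
  intro μ hμ hsupp
  -- compact sets close to `1` of positive measure
  have h1 : ∀ n, ∃ K : Set GG, IsCompact K ∧ IsClosed K ∧ 0 < μ n K ∧
      ∀ x ∈ K, ∀ k < n, x k = 1 := by
    intro n
    set U : Set GG := {x | ∀ k < n, x k = 1} with hU
    have hUo : IsOpen U := by
      have : U = ⋂ k ∈ Finset.range n, (fun x : GG => x k) ⁻¹' {1} := by
        ext x; simp [hU]
      rw [this]
      exact isOpen_biInter_finset fun k _ => (isOpen_discrete _).preimage (continuous_apply k)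
    have hU1 : U ∈ 𝓝 (1 : GG) := hUo.mem_nhds fun k _ => rfl
    have hreg := innerRegular_isCompact_isClosed_measurableSet_of_finite (μ n)
    obtain ⟨K, hKU, ⟨hK, hK'⟩, hpos⟩ := hreg hUo.measurableSet 0 (hsupp n U hU1)
    exact ⟨K, hK, hK', hpos, hKU⟩
  choose K hKc hKcl hKpos hK1 using h1
  -- finite subgroups containing all the coordinates
  have h2 : ∀ k, ∃ d, ∀ n ≤ k, ∀ x ∈ K n, x k ∈ sub d := by
    intro k
    have hfin : (⋃ n ∈ Finset.range (k + 1), (fun x : GG => x k) '' (K n)).Finite :=
      Set.Finite.biUnion (Finset.finite_toSet _) fun n _ => finite_proj (hKc n) k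
    obtain ⟨d, hd⟩ := exists_sub _ hfin
    refine ⟨d, fun n hn x hx => hd _ ?_⟩
    simp only [Set.mem_iUnion]
    exact ⟨n, Finset.mem_range.2 (by omega), x, hx, rfl⟩
  choose d hd using h2
  have hKd : ∀ n, ∀ x ∈ K n, ∀ k, x k ∈ sub (d k) := by
    intro n x hx k
    rcases Nat.lt_or_ge k n with h | h
    · rw [hK1 n x hx k h]
      exact one_mem _
    · exact hd k n h x hx
  obtain ⟨ν₀, hν₀, hinv⟩ := exists_invariant d
  refine ⟨fun n => (μ n (K n))⁻¹ • (μ n).restrict (K n), ν₀, fun n => ⟨?_⟩, hν₀, fun n => ?_,
    fun C hC => ?_⟩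
  · rw [Measure.smul_apply, Measure.restrict_apply_univ, smul_eq_mul]
    exact ENNReal.inv_mul_cancel (hKpos n).ne' (measure_ne_top _ _)
  · exact (Measure.smul_absolutelyContinuous).trans Measure.absolutelyContinuous_restrict
  · have hC' : MeasurableSet {p : GG × GG | p.1 * p.2 ∈ C} :=
      continuous_mul.measurable hC.measurableSet
    have hn : ∀ n, (ν₀.prod ((μ n (K n))⁻¹ • (μ n).restrict (K n))) {p : GG × GG | p.1 * p.2 ∈ C}
        = ν₀ C := by
      intro n
      have hp : IsProbabilityMeasure ((μ n (K n))⁻¹ • (μ n).restrict (K n)) := ⟨by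
        rw [Measure.smul_apply, Measure.restrict_apply_univ, smul_eq_mul]
        exact ENNReal.inv_mul_cancel (hKpos n).ne' (measure_ne_top _ _)⟩
      rw [Measure.prod_apply_symm hC']
      have hae : ∀ᵐ y ∂((μ n (K n))⁻¹ • (μ n).restrict (K n)),
          ν₀ ((fun x => (x, y)) ⁻¹' {p : GG × GG | p.1 * p.2 ∈ C}) = ν₀ C := by
        refine Measure.smul_absolutelyContinuous.ae_le ?_
        filter_upwards [ae_restrict_mem (hKcl n).measurableSet] with y hy
        exact hinv y (hKd n y hy) C hC.measurableSet
      rw [lintegral_congr_ae hae, lintegral_const, measure_univ, mul_one]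
    simp only [hn]
    exact tendsto_const_nhds

/-- There are a Polish group which is amenable at 1 and a closed subset of it which is left Haar
null but not right Haar null. -/
theorem result : ∃ (G : Type) (_ : Group G) (_ : TopologicalSpace G) (_ : IsTopologicalGroup G)
    (_ : PolishSpace G) (_ : MeasurableSpace G) (_ : BorelSpace G),
    AmenableAtOne G ∧ ∃ A : Set G, IsClosed A ∧ LeftHaarNull A ∧ ¬ RightHaarNull A :=
  ⟨GG, inferInstance, inferInstance, inferInstance, inferInstance, inferInstance, inferInstance,
    amenableAtOne_GG, A, isClosed_A, leftHaarNull_A, not_rightHaarNull_A⟩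

end Pool.Agent.Results.MP_092965_lc.LeftNotRight
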